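import Pool.Agent.Lib.MP_759ce5_an.Support

open MeasureTheory
open Pool.Agent.Lib.MP_759ce5_an

noncomputable section

namespace Pool.Agent.Results.MP_759ce5_an.JustInfinite

/-- The Hilbert space `L²(∂T, μ)` of complex square integrable functions on the boundary. -/
def L2 : Type := Lp ℂ 2 mu

instance instL2 : NormedAddCommGroup L2 := (inferInstance : NormedAddCommGroup (Lp ℂ 2 mu))

instance instL2' : NormedSpace ℂ L2 := (inferInstance : NormedSpace ℂ (Lp ℂ 2 mu))

/-- Every element of the Grigorchuk group preserves the uniform Bernoulli measure. -/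
theorem mp_grig (g : Grig) : MeasurePreserving (g : Equiv.Perm Bdry) mu mu := Support.mp_grig g

/-- The Koopman representation: `ρ(g)` is the operator on `L²(∂T, μ)` given by
`(ρ(g) f)(x) = f(g⁻¹ x)`. -/
def rho (g : Grig) : L2 →L[ℂ] L2 :=
  (Lp.compMeasurePreservingₗᵢ ℂ ((g⁻¹ : Grig) : Equiv.Perm Bdry)
    (mp_grig g⁻¹) : Lp ℂ 2 mu →ₗᵢ[ℂ] Lp ℂ 2 mu).toContinuousLinearMap

/-- `ρ` is a representation. -/
theorem rho_one : rho 1 = 1 := Support.rho.map_one

/-- `ρ` is a representation. -/
theorem rho_mul (g h : Grig) : rho (g * h) = rho g * rho h := Support.rho.map_mul g h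

/-- `C*_ρ(G)`: the norm closure, in the bounded operators on `L²(∂T, μ)`, of the algebra
generated by the operators `ρ(g)`, i.e. of `ρ(ℂ[G])` (see `adjoin_eq_span`). -/
def CstarRho : Subalgebra ℂ (L2 →L[ℂ] L2) :=
  (Algebra.adjoin ℂ (Set.range rho)).topologicalClosure

/-- The algebra generated by the operators `ρ(g)` is their linear span, i.e. `ρ(ℂ[G])`. -/
theorem adjoin_eq_span : Subalgebra.toSubmodule (Algebra.adjoin ℂ (Set.range rho))
    = Submodule.span ℂ (Set.range rho) := by
  rw [Algebra.adjoin_eq_span]
  congr 1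
  apply le_antisymm
  · intro x hx
    refine Submonoid.closure_induction (motive := fun x _ => x ∈ Set.range rho) ?_ ?_ ?_ hx
    · intro y hy; exact hy
    · exact ⟨1, rho_one⟩
    · rintro _ _ _ _ ⟨g, rfl⟩ ⟨h, rfl⟩
      exact ⟨g * h, rho_mul g h⟩
  · exact Submonoid.subset_closure

/-- The C*-algebra `C*_ρ(G)` as a type, with the ring structure, complex algebra structure and
norm topology inherited from the bounded operators. -/
def CstarAlg : Type := CstarRho

instance instRing : Ring CstarAlg := (inferInstance : Ring CstarRho)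

instance instTop : TopologicalSpace CstarAlg := (inferInstance : TopologicalSpace CstarRho)

instance instAlg : Algebra ℂ CstarAlg := (inferInstance : Algebra ℂ CstarRho)

/-- **Main theorem.** Every proper image of `C*_ρ(G)` is finite dimensional: for every nonzero
closed two-sided ideal `I` of `C*_ρ(G)` the quotient `C*_ρ(G)/I` is a finite dimensional complex
vector space. -/
theorem result (I : Ideal CstarAlg) (hI : I.IsTwoSided) (hcl : IsClosed (I : Set CstarAlg))
    (hne : I ≠ ⊥) : FiniteDimensional ℂ (CstarAlg ⧸ I) :=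
  Support.result_aux I hI hcl hne

end Pool.Agent.Results.MP_759ce5_an.JustInfinite
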